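import Pool.Agent.U307.NIL.Stm

set_option autoImplicit false

/-! Project NIL, package AB (Alaoglu-Birkhoff). -/

open Filter Topology Finset
open scoped InnerProductSpace

namespace Pool.Agent.U451.NIL

open Pool.Agent.U307.NIL

theorem t_AB : S_AB := by
  classical
  intro M _ S K _ _ _ ρ η hη ε hε
  let _ : InnerProductSpace ℝ K := InnerProductSpace.rclikeToReal ℂ K
  set O : Set K := {v | ∃ x ∈ S, v = ρ x η} with hO
  set A : Set K := convexHull ℝ O with hA
  set C : Set K := closure A with hC
  have hAc : Convex ℝ A := convex_convexHull ℝ O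
  have hCc : Convex ℝ C := hAc.closure
  have hOA : O ⊆ A := subset_convexHull ℝ O
  have hAC : A ⊆ C := subset_closure
  have hne : C.Nonempty := ⟨η, hAC (hOA ⟨1, S.one_mem, by simp⟩)⟩
  have hcomp : IsComplete C := isClosed_closure.isComplete
  obtain ⟨z, hz, hmin⟩ := exists_norm_eq_iInf_of_complete_convex hne hcomp hCc (0 : K)
  rw [norm_eq_iInf_iff_real_inner_le_zero hCc hz] at hmin
  -- the closed convex hull is invariant
  have hinv : ∀ x ∈ S, ∀ w ∈ C, ρ x w ∈ C := by
    intro x hx
    have h1 : C ⊆ (ρ x) ⁻¹' C := by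
      refine closure_minimal ?_ (isClosed_closure.preimage (ρ x).continuous)
      refine convexHull_min ?_ ?_
      · rintro _ ⟨y, hy, rfl⟩
        refine hAC (hOA ⟨x * y, S.mul_mem hx hy, ?_⟩)
        rw [map_mul]
        rfl
      · intro v hv w hw a b ha hb hab
        have h2 : ρ x (a • v + b • w) = a • ρ x v + b • ρ x w := by
          have h3 : ∀ (a : ℝ) (v : K), ρ x (a • v) = a • ρ x v := by
            intro a v
            have h4 := (ρ x).map_smul (a : ℂ) v
            simpa using h4
          rw [map_add, h3, h3]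
        simp only [Set.mem_preimage] at hv hw ⊢
        rw [h2]
        exact hCc hv hw ha hb hab
    exact h1
  -- the vector of least norm is fixed
  have hfix : ∀ x ∈ S, ρ x z = z := by
    intro x hx
    have h1 := hmin _ (hinv x hx z hz)
    have h2 : ‖ρ x z - z‖ ^ 2 ≤ 0 := by
      have h3 := @norm_sub_sq_real K _ _ (ρ x z) z
      have h4 : ‖ρ x z‖ = ‖z‖ := (ρ x).norm_map z
      rw [h4] at h3
      have h5 : (inner ℝ (0 - z) (ρ x z - z) : ℝ) = ‖z‖ ^ 2 - inner ℝ (ρ x z) z := by
        rw [zero_sub, inner_neg_left, inner_sub_right, real_inner_self_eq_norm_sq,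
          real_inner_comm]
        ring
      rw [h5] at h1
      rw [h3]
      linarith
    have h6 : ‖ρ x z - z‖ = 0 := by
      have := sq_nonneg ‖ρ x z - z‖
      exact pow_eq_zero_iff two_ne_zero |>.1 (le_antisymm h2 this)
    exact sub_eq_zero.1 (norm_eq_zero.1 h6)
  have hzη := hη z hfix
  -- it is orthogonal to the hull
  have horth : ∀ w ∈ C, ⟪z, w⟫_ℂ = 0 := by
    have h1 : C ⊆ {w | ⟪z, w⟫_ℂ = 0} := by
      refine closure_minimal ?_ ?_
      · refine convexHull_min ?_ ?_
        · rintro _ ⟨y, hy, rfl⟩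
          show ⟪z, ρ y η⟫_ℂ = 0
          rw [← hzη]
          conv_lhs => rw [← hfix y hy]
          exact (ρ y).inner_map_map z η
        · intro v hv w hw a b _ _ _
          simp only [Set.mem_ofPred_eq] at hv hw ⊢
          have h3 : a • v + b • w = (a : ℂ) • v + (b : ℂ) • w := by simp
          rw [h3, inner_add_right, inner_smul_right, inner_smul_right, hv, hw]
          simp
      · exact isClosed_eq (by fun_prop) continuous_const
    exact h1
  have hz0 : z = 0 := by
    have := horth z hz
    exact inner_self_eq_zero.1 this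
  rw [hz0] at hz
  obtain ⟨v, hv, hvε⟩ := Metric.mem_closure_iff.1 hz ε hε
  rw [dist_zero_left] at hvε
  rw [hA, _root_.convexHull_eq] at hv
  obtain ⟨ι, t, w, y, hw0, hw1, hy, hcm⟩ := hv
  have hch : ∀ i, ∃ x : M, i ∈ t → x ∈ S ∧ y i = ρ x η := by
    intro i
    by_cases hi : i ∈ t
    · obtain ⟨x, hx, hxy⟩ := hy i hi
      exact ⟨x, fun _ => ⟨hx, hxy⟩⟩
    · exact ⟨1, fun h => absurd h hi⟩
  choose g hg using hch
  refine ⟨t.image g, fun x => ∑ i ∈ t with g i = x, w i, ?_, ?_, ?_⟩
  · intro x hx
    obtain ⟨i, hi, rfl⟩ := Finset.mem_image.1 hx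
    refine ⟨(hg i hi).1, Finset.sum_nonneg fun j hj => hw0 j (Finset.mem_filter.1 hj).1⟩
  · rw [Finset.sum_fiberwise_of_maps_to (fun i hi => Finset.mem_image_of_mem g hi)]
    exact hw1
  · have h1 : ∑ x ∈ t.image g, (((∑ i ∈ t with g i = x, w i : ℝ)) : ℂ) • ρ x η = v := by
      rw [← hcm, Finset.centerMass_eq_of_sum_1 _ _ hw1]
      rw [← Finset.sum_fiberwise_of_maps_to (fun i hi => Finset.mem_image_of_mem g hi)
        (fun i => w i • y i)]
      refine Finset.sum_congr rfl fun x _ => ?_
      rw [Complex.ofReal_sum, Finset.sum_smul]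
      refine Finset.sum_congr rfl fun i hi => ?_
      obtain ⟨hit, hix⟩ := Finset.mem_filter.1 hi
      rw [(hg i hit).2, hix]
      simp
    rw [h1]
    exact hvε

end Pool.Agent.U451.NIL
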